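import Mathlib

/-!
# The semisimple part of an endomorphism and exact sequences
-/

set_option autoImplicit false

open Module TensorProduct

universe u

namespace Pool.Agent.X306.JB

variable {E : Type u} [Field E]

section sd

/-- The dimension of the largest stable subspace on which `g` is diagonalizable. -/
noncomputable def sd {W : Type u} [AddCommGroup W] [Module E W] (g : Module.End E W) : ℕ :=
  finrank E (⨆ μ : E, g.eigenspace μ : Submodule E W)

variable {W A C : Type u} [AddCommGroup W] [Module E W] [AddCommGroup A] [Module E A] [AddCommGroup C] [Module E C]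

theorem sd_exact [FiniteDimensional E W] [FiniteDimensional E C] {g : Module.End E W} {a : Module.End E A}
    {c : Module.End E C} (i : A →ₗ[E] W) (p : W →ₗ[E] C) (hi : Function.Injective i)
    (hp : ∀ x, p x = 0 → ∃ y, i y = x) (h1 : ∀ y, g (i y) = i (a y)) (h2 : ∀ x, p (g x) = c (p x)) :
    sd g ≤ sd a + sd c := by
  haveI : FiniteDimensional E A := FiniteDimensional.of_injective i hi
  unfold sd
  set S : Submodule E W := ⨆ μ : E, g.eigenspace μ with hS
  have hSg : ∀ x ∈ S, g x ∈ S := by
    intro x hx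
    have h : S ≤ S.comap g := by
      rw [hS]
      refine iSup_le fun μ y hy => ?_
      rw [Submodule.mem_comap, Module.End.mem_eigenspace_iff.1 hy]
      exact Submodule.smul_mem _ _ (Submodule.mem_iSup_of_mem μ hy)
    exact h hx
  set q := p.domRestrict S with hq
  have h4 := LinearMap.finrank_range_add_finrank_ker q
  -- the range
  have h5 : LinearMap.range q ≤ ⨆ μ : E, c.eigenspace μ := by
    rintro _ ⟨⟨x, hx⟩, rfl⟩
    change p x ∈ _
    have h : S ≤ (⨆ μ : E, c.eigenspace μ).comap p := by
      rw [hS]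
      refine iSup_le fun μ y hy => ?_
      rw [Submodule.mem_comap]
      refine Submodule.mem_iSup_of_mem μ (Module.End.mem_eigenspace_iff.2 ?_)
      rw [← h2, Module.End.mem_eigenspace_iff.1 hy, map_smul]
    exact h hx
  -- the kernel
  have h6 : (LinearMap.ker q).map S.subtype ≤ (⨆ μ : E, a.eigenspace μ).map i := by
    rintro _ ⟨⟨x, hx⟩, hx0, rfl⟩
    change x ∈ _
    have hx1 : p x = 0 := hx0
    have hR : ∀ y ∈ LinearMap.range i, g y ∈ LinearMap.range i := by
      rintro _ ⟨y, rfl⟩
      exact ⟨a y, (h1 y).symm⟩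
    obtain ⟨y, hy⟩ := hp x hx1
    have h7 : x ∈ LinearMap.range i ⊓ ⨆ μ : E, g.eigenspace μ := ⟨⟨y, hy⟩, hx⟩
    have h8 := Submodule.inf_iSup_genEigenspace (f := g) (p := LinearMap.range i) hR 1
    have h9 : x ∈ ⨆ μ : E, (LinearMap.range i ⊓ g.genEigenspace μ 1) := by
      rw [← h8]
      exact h7
    have h10 : (⨆ μ : E, (LinearMap.range i ⊓ g.genEigenspace μ 1)) ≤ (⨆ μ : E, a.eigenspace μ).map i := by
      refine iSup_le fun μ => ?_
      rintro _ ⟨⟨z, rfl⟩, hz⟩
      refine ⟨z, Submodule.mem_iSup_of_mem μ (Module.End.mem_eigenspace_iff.2 (hi ?_)), rfl⟩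
      rw [← h1, map_smul]
      exact Module.End.mem_eigenspace_iff.1 hz
    exact h10 h9
  have h11 : finrank E (LinearMap.ker q) ≤ finrank E (⨆ μ : E, a.eigenspace μ : Submodule E A) := by
    have h12 : finrank E ((LinearMap.ker q).map S.subtype) = finrank E (LinearMap.ker q) :=
      LinearEquiv.finrank_eq (Submodule.equivMapOfInjective _ S.injective_subtype _).symm
    rw [← h12]
    exact (Submodule.finrank_mono h6).trans (Submodule.finrank_map_le _ _)
  have h13 := Submodule.finrank_mono h5
  omega

theorem sd_equiv {g : Module.End E W} {a : Module.End E A} (e : W ≃ₗ[E] A) (h : ∀ x, e (g x) = a (e x)) :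
    sd g = sd a := by
  unfold sd
  have h1 : (⨆ μ : E, a.eigenspace μ) = (⨆ μ : E, g.eigenspace μ).map (e : W →ₗ[E] A) := by
    rw [Submodule.map_iSup]
    congr 1
    ext μ y
    rw [Module.End.mem_eigenspace_iff, Submodule.mem_map]
    constructor
    · intro hy
      refine ⟨e.symm y, Module.End.mem_eigenspace_iff.2 (e.injective ?_), e.apply_symm_apply y⟩
      rw [h, e.apply_symm_apply, hy, map_smul, e.apply_symm_apply]
    · rintro ⟨x, hx, rfl⟩
      change a (e x) = μ • e x
      rw [← h, Module.End.mem_eigenspace_iff.1 hx, map_smul]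
  rw [h1]
  exact (LinearEquiv.finrank_eq (e.submoduleMap _))

theorem sd_smul {g : Module.End E W} {c : E} (hc : c ≠ 0) : sd (c • g) = sd g := by
  unfold sd
  have h1 : (⨆ μ : E, (c • g).eigenspace μ) = ⨆ μ : E, g.eigenspace μ := by
    refine le_antisymm (iSup_le fun μ x hx => ?_) (iSup_le fun μ x hx => ?_)
    · have h2 := Module.End.mem_eigenspace_iff.1 hx
      refine Submodule.mem_iSup_of_mem (c⁻¹ * μ) (Module.End.mem_eigenspace_iff.2 ?_)
      rw [LinearMap.smul_apply] at h2
      rw [mul_smul, ← h2, smul_smul, inv_mul_cancel₀ hc, one_smul]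
    · have h2 := Module.End.mem_eigenspace_iff.1 hx
      refine Submodule.mem_iSup_of_mem (c * μ) (Module.End.mem_eigenspace_iff.2 ?_)
      rw [LinearMap.smul_apply, h2, smul_smul]
  rw [h1]

end sd

section dbl

variable {W A C : Type u} [AddCommGroup W] [Module E W] [AddCommGroup A] [Module E A] [AddCommGroup C] [Module E C]

/-- The tensor product of `g` and the unipotent block of size two: `(x, y) ↦ (g x + g y, g y)`. -/
noncomputable def dbl (g : Module.End E W) : Module.End E (W × W) :=
  (g.coprod g).prod (g.comp (LinearMap.snd E W W))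

theorem dbl_apply (g : Module.End E W) (x : W × W) : dbl g x = (g x.1 + g x.2, g x.2) := rfl

/-- The dimension of the semisimple part of `g ⊗ u^{⊗ m}`, where `u` is the unipotent block of size two. -/
noncomputable def aa : (m : ℕ) → {W : Type u} → [AddCommGroup W] → [Module E W] → Module.End E W → ℕ
  | 0, _, _, _, g => sd g
  | m + 1, _, _, _, g => aa m (dbl g)

theorem aa_zero (g : Module.End E W) : aa 0 g = sd g := rfl

theorem aa_succ (m : ℕ) (g : Module.End E W) : aa (m + 1) g = aa m (dbl g) := rfl

theorem aa_exact (m : ℕ) : ∀ {W A C : Type u} [AddCommGroup W] [Module E W] [AddCommGroup A] [Module E A]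
    [AddCommGroup C] [Module E C] [FiniteDimensional E W] [FiniteDimensional E C] {g : Module.End E W}
    {a : Module.End E A} {c : Module.End E C} (i : A →ₗ[E] W) (p : W →ₗ[E] C), Function.Injective i →
    (∀ x, p x = 0 → ∃ y, i y = x) → (∀ y, g (i y) = i (a y)) → (∀ x, p (g x) = c (p x)) →
    aa m g ≤ aa m a + aa m c := by
  induction m with
  | zero =>
    intro W A C _ _ _ _ _ _ _ _ g a c i p hi hp h1 h2
    exact sd_exact i p hi hp h1 h2
  | succ m ih =>
    intro W A C _ _ _ _ _ _ _ _ g a c i p hi hp h1 h2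
    rw [aa_succ, aa_succ, aa_succ]
    refine ih (i.prodMap i) (p.prodMap p) ?_ ?_ ?_ ?_
    · rintro ⟨x, y⟩ ⟨x', y'⟩ h
      rw [LinearMap.prodMap_apply, LinearMap.prodMap_apply, Prod.mk.injEq] at h
      exact Prod.ext (hi h.1) (hi h.2)
    · rintro ⟨x, y⟩ h
      rw [LinearMap.prodMap_apply, Prod.mk_eq_zero] at h
      obtain ⟨x', hx'⟩ := hp _ h.1
      obtain ⟨y', hy'⟩ := hp _ h.2
      refine ⟨(x', y'), ?_⟩
      rw [LinearMap.prodMap_apply]
      exact Prod.ext hx' hy'
    · rintro ⟨x, y⟩
      rw [LinearMap.prodMap_apply, dbl_apply, dbl_apply, LinearMap.prodMap_apply]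
      refine Prod.ext ?_ ?_
      · change g (i x) + g (i y) = i (a x + a y)
        rw [h1, h1, map_add]
      · exact h1 y
    · rintro ⟨x, y⟩
      rw [LinearMap.prodMap_apply, dbl_apply, dbl_apply, LinearMap.prodMap_apply]
      refine Prod.ext ?_ ?_
      · change p (g x + g y) = c (p x) + c (p y)
        rw [map_add, h2, h2]
      · exact h2 y

theorem aa_equiv (m : ℕ) : ∀ {W A : Type u} [AddCommGroup W] [Module E W] [AddCommGroup A] [Module E A]
    {g : Module.End E W} {a : Module.End E A} (e : W ≃ₗ[E] A), (∀ x, e (g x) = a (e x)) → aa m g = aa m a := by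
  induction m with
  | zero => intro W A _ _ _ _ g a e h; exact sd_equiv e h
  | succ m ih =>
    intro W A _ _ _ _ g a e h
    rw [aa_succ, aa_succ]
    refine ih (e.prodCongr e) ?_
    rintro ⟨x, y⟩
    refine Prod.ext ?_ ?_
    · change e (g x + g y) = a (e x) + a (e y)
      rw [map_add, h, h]
    · exact h y

theorem aa_smul (m : ℕ) : ∀ {W : Type u} [AddCommGroup W] [Module E W] {g : Module.End E W} {c : E}, c ≠ 0 →
    aa m (c • g) = aa m g := by
  induction m with
  | zero => intro W _ _ g c hc; exact sd_smul hc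
  | succ m ih =>
    intro W _ _ g c hc
    rw [aa_succ, aa_succ, ← ih (W := W × W) (g := dbl g) hc]
    congr 1
    refine LinearMap.ext fun x => ?_
    rw [LinearMap.smul_apply, dbl_apply, dbl_apply, LinearMap.smul_apply, LinearMap.smul_apply, Prod.smul_mk, smul_add]

theorem aa_subsingleton (m : ℕ) : ∀ {W : Type u} [AddCommGroup W] [Module E W] [Subsingleton W] (g : Module.End E W),
    aa m g = 0 := by
  induction m with
  | zero =>
    intro W _ _ _ g
    exact finrank_zero_of_subsingleton
  | succ m ih =>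
    intro W _ _ _ g
    exact ih _

end dbl

end Pool.Agent.X306.JB
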