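import Pool.Agent.X306.JB.A

/-!
# Tensor products
-/

set_option autoImplicit false

open Module TensorProduct

universe u

namespace Pool.Agent.X306.JB

variable {E : Type u} [Field E] {W V : Type u} [AddCommGroup W] [Module E W] [AddCommGroup V] [Module E V]

/-- A functional with the value one at a vector outside a subspace. -/
theorem exists_fun {S : Submodule E V} {x : V} (hx : x ∉ S) : ∃ φ : V →ₗ[E] E, φ x = 1 ∧ ∀ y ∈ S, φ y = 0 := by
  obtain ⟨φ, h1, h2⟩ := S.exists_dual_map_eq_bot_of_notMem hx inferInstance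
  refine ⟨(φ x)⁻¹ • φ, by rw [LinearMap.smul_apply, smul_eq_mul, inv_mul_cancel₀ h1], fun y hy => ?_⟩
  have h3 : φ y ∈ S.map φ := ⟨y, hy, rfl⟩
  rw [h2] at h3
  rw [LinearMap.smul_apply, (Submodule.mem_bot E).1 h3, smul_zero]

/-- The endomorphism of the quotient by a stable subspace is injective. -/
theorem mapQ_inj [FiniteDimensional E V] {f : Module.End E V} (hf : Function.Injective f) {J : Submodule E V}
    (hJ : J ≤ J.comap f) : Function.Injective (J.mapQ J f hJ) := by
  have h1 : Function.Surjective f := LinearMap.surjective_of_injective hf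
  have h2 : Function.Surjective (J.mapQ J f hJ) := by
    intro y
    obtain ⟨x, rfl⟩ := J.mkQ_surjective y
    obtain ⟨z, rfl⟩ := h1 x
    exact ⟨J.mkQ z, rfl⟩
  exact LinearMap.injective_iff_surjective.2 h2

/-- The kernel of `W ⊗ V → W ⊗ (V ⧸ J)`. -/
theorem ker_lT {J : Submodule E V} {x : W ⊗[E] V} (hx : J.mkQ.lTensor W x = 0) :
    ∃ z : W ⊗[E] J, J.subtype.lTensor W z = x := by
  have h1 : Function.Exact J.subtype J.mkQ := LinearMap.exact_subtype_mkQ J
  exact (lTensor_exact W h1 J.mkQ_surjective x).1 hx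

theorem lT_map {f : Module.End E V} {J : Submodule E V} (hJ : J ≤ J.comap f) (g : Module.End E W) (x : W ⊗[E] V) :
    J.mkQ.lTensor W (TensorProduct.map g f x) = TensorProduct.map g (J.mapQ J f hJ) (J.mkQ.lTensor W x) := by
  induction x using TensorProduct.induction_on with
  | zero => simp
  | tmul x y => rfl
  | add x y hx hy => rw [map_add, map_add, map_add, map_add, hx, hy]

/-- One line. -/
theorem aa_line [FiniteDimensional E W] [FiniteDimensional E V] (m : ℕ) {g : Module.End E W} {f : Module.End E V}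
    {v : V} {l : E} (hv : v ≠ 0) (hl : l ≠ 0) (h : f v = l • v) (hJ : (E ∙ v) ≤ (E ∙ v).comap f) :
    aa m (TensorProduct.map g f) ≤ aa m g + aa m (TensorProduct.map g ((E ∙ v).mapQ (E ∙ v) f hJ)) := by
  rw [← aa_smul m (g := g) hl]
  set i : W →ₗ[E] W ⊗[E] V := (TensorProduct.mk E W V).flip v with hi
  have hi' : ∀ x, i x = x ⊗ₜ v := fun x => rfl
  refine aa_exact m i ((E ∙ v).mkQ.lTensor W) ?_ ?_ ?_ ?_
  · obtain ⟨φ, h1, -⟩ := exists_fun (S := (⊥ : Submodule E V)) (x := v) (by rwa [Submodule.mem_bot])
    intro x y hxy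
    have h2 := congrArg (fun z => TensorProduct.rid E W (φ.lTensor W z)) hxy
    simpa [hi', h1] using h2
  · intro x hx
    obtain ⟨z, rfl⟩ := ker_lT hx
    clear hx
    induction z using TensorProduct.induction_on with
    | zero => exact ⟨0, by simp⟩
    | tmul x y =>
      obtain ⟨y, hy⟩ := y
      obtain ⟨c, rfl⟩ := Submodule.mem_span_singleton.1 hy
      refine ⟨c • x, ?_⟩
      rw [hi', LinearMap.lTensor_tmul]
      change (c • x) ⊗ₜ[E] v = x ⊗ₜ[E] (c • v)
      rw [TensorProduct.smul_tmul]
    | add x y hx hy =>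
      obtain ⟨a, ha⟩ := hx
      obtain ⟨b, hb⟩ := hy
      exact ⟨a + b, by rw [map_add, map_add, ha, hb]⟩
  · intro y
    rw [hi', hi', TensorProduct.map_tmul, h, LinearMap.smul_apply, TensorProduct.tmul_smul, TensorProduct.smul_tmul']
  · intro x
    exact lT_map hJ g x

/-- One block of size two. -/
theorem aa_block [FiniteDimensional E W] [FiniteDimensional E V] (m : ℕ) {g : Module.End E W} {f : Module.End E V}
    {w v : V} {l : E} (hw : w ≠ 0) (hl : l ≠ 0) (h1 : f w = l • w) (h2 : f v = l • v + l • w)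
    (hJ : Submodule.span E {w, v} ≤ (Submodule.span E {w, v}).comap f) :
    aa m (TensorProduct.map g f) ≤
      aa (m + 1) g + aa m (TensorProduct.map g ((Submodule.span E {w, v}).mapQ (Submodule.span E {w, v}) f hJ)) := by
  have hvw : v ∉ (E ∙ w) := by
    intro h
    obtain ⟨c, rfl⟩ := Submodule.mem_span_singleton.1 h
    rw [map_smul, h1, smul_comm c l w, left_eq_add] at h2
    exact (smul_ne_zero hl hw) h2
  have hwv : w ∉ (E ∙ v) := by
    intro h
    obtain ⟨c, hc⟩ := Submodule.mem_span_singleton.1 h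
    have hc0 : c ≠ 0 := by
      rintro rfl
      rw [zero_smul] at hc
      exact hw hc.symm
    exact hvw (Submodule.mem_span_singleton.2 ⟨c⁻¹, by rw [← hc, smul_smul, inv_mul_cancel₀ hc0, one_smul]⟩)
  rw [aa_succ, ← aa_smul m (g := dbl g) hl]
  set i : (W × W) →ₗ[E] W ⊗[E] V :=
    ((TensorProduct.mk E W V).flip w).coprod ((TensorProduct.mk E W V).flip v) with hi
  have hi' : ∀ x, i x = x.1 ⊗ₜ w + x.2 ⊗ₜ v := fun x => rfl
  refine aa_exact m i ((Submodule.span E {w, v}).mkQ.lTensor W) ?_ ?_ ?_ ?_
  · obtain ⟨φ, h3, h4⟩ := exists_fun hwv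
    obtain ⟨ψ, h5, h6⟩ := exists_fun hvw
    have h4' := h4 v (Submodule.mem_span_singleton_self v)
    have h6' := h6 w (Submodule.mem_span_singleton_self w)
    intro x y hxy
    refine Prod.ext ?_ ?_
    · have h7 := congrArg (fun z => TensorProduct.rid E W (φ.lTensor W z)) hxy
      simpa [hi', h3, h4'] using h7
    · have h7 := congrArg (fun z => TensorProduct.rid E W (ψ.lTensor W z)) hxy
      simpa [hi', h5, h6'] using h7
  · intro x hx
    obtain ⟨z, rfl⟩ := ker_lT hx
    clear hx
    induction z using TensorProduct.induction_on with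
    | zero => exact ⟨0, by simp⟩
    | tmul x y =>
      obtain ⟨y, hy⟩ := y
      obtain ⟨c, d, rfl⟩ := Submodule.mem_span_pair.1 hy
      refine ⟨(c • x, d • x), ?_⟩
      rw [hi', LinearMap.lTensor_tmul]
      change (c • x) ⊗ₜ[E] w + (d • x) ⊗ₜ[E] v = x ⊗ₜ[E] (c • w + d • v)
      rw [TensorProduct.smul_tmul, TensorProduct.smul_tmul, TensorProduct.tmul_add]
    | add x y hx hy =>
      obtain ⟨a, ha⟩ := hx
      obtain ⟨b, hb⟩ := hy
      exact ⟨a + b, by rw [map_add, map_add, ha, hb]⟩
  · rintro ⟨x, y⟩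
    rw [hi', hi', LinearMap.smul_apply, dbl_apply, map_add, TensorProduct.map_tmul, TensorProduct.map_tmul, h1, h2]
    change g x ⊗ₜ[E] (l • w) + g y ⊗ₜ[E] (l • v + l • w) = (l • (g x + g y)) ⊗ₜ[E] w + (l • g y) ⊗ₜ[E] v
    rw [TensorProduct.tmul_add, smul_add, TensorProduct.add_tmul, TensorProduct.smul_tmul, TensorProduct.smul_tmul,
      TensorProduct.smul_tmul]
    abel
  · intro x
    exact lT_map hJ g x

variable [IsAlgClosed E]

/-- The tensor product with an arbitrary injective endomorphism. -/
theorem aa_tensor (m : ℕ) (g : Module.End E W) [FiniteDimensional E W] : ∀ (r : ℕ) {V : Type u} [AddCommGroup V] [Module E V]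
    [FiniteDimensional E V] (f : Module.End E V), Function.Injective f → finrank E V = r →
    aa m (TensorProduct.map g f) ≤ r * aa m g := by
  intro r
  induction r with
  | zero =>
    intro V _ _ _ f _ hr
    haveI : Subsingleton V := finrank_zero_iff.1 hr
    haveI : Subsingleton (W ⊗[E] V) := by
      refine ⟨fun x y => ?_⟩
      have h : ∀ x : W ⊗[E] V, x = 0 := by
        intro x
        induction x using TensorProduct.induction_on with
        | zero => rfl
        | tmul x y => rw [Subsingleton.elim y 0, TensorProduct.tmul_zero]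
        | add x y hx hy => rw [hx, hy, add_zero]
      rw [h x, h y]
    rw [aa_subsingleton, zero_mul]
  | succ r ih =>
    intro V _ _ _ f hf hr
    haveI : Nontrivial V := by
      rw [← Module.finrank_pos_iff (R := E)]
      omega
    obtain ⟨l, hl⟩ := Module.End.exists_eigenvalue f
    obtain ⟨v, hv⟩ := hl.exists_hasEigenvector
    have hv0 : v ≠ 0 := hv.2
    have hfv : f v = l • v := hv.apply_eq_smul
    have hl0 : l ≠ 0 := by
      rintro rfl
      rw [zero_smul, ← map_zero f] at hfv
      exact hv0 (hf hfv)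
    have hJ : (E ∙ v) ≤ (E ∙ v).comap f := by
      rw [Submodule.span_singleton_le_iff_mem, Submodule.mem_comap, hfv]
      exact Submodule.smul_mem _ _ (Submodule.mem_span_singleton_self v)
    refine (aa_line m (g := g) hv0 hl0 hfv hJ).trans ?_
    have h1 : finrank E (V ⧸ (E ∙ v)) = r := by
      have h2 := Submodule.finrank_quotient_add_finrank (E ∙ v)
      rw [finrank_span_singleton hv0] at h2
      omega
    have h3 := ih _ (mapQ_inj hf hJ) h1
    rw [add_mul, one_mul, add_comm]
    exact Nat.add_le_add_right h3 _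

/-- The recursion. -/
theorem aa_rec [FiniteDimensional E W] [FiniteDimensional E V] (m : ℕ) (g : Module.End E W) {f : Module.End E V}
    (hf : Function.Injective f) {w v : V} {l : E} (hw : w ≠ 0) (hl : l ≠ 0) (h1 : f w = l • w)
    (h2 : f v = l • v + l • w) :
    2 ≤ finrank E V ∧ aa m (TensorProduct.map g f) ≤ aa (m + 1) g + (finrank E V - 2) * aa m g := by
  have hJ : Submodule.span E {w, v} ≤ (Submodule.span E {w, v}).comap f := by
    rw [Submodule.span_le]
    intro x hx
    rcases hx with rfl | hx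
    · rw [SetLike.mem_coe, Submodule.mem_comap, h1]
      exact Submodule.smul_mem _ _ (Submodule.subset_span (Set.mem_insert _ _))
    · rw [Set.mem_singleton_iff] at hx
      subst hx
      rw [SetLike.mem_coe, Submodule.mem_comap, h2]
      exact Submodule.add_mem _ (Submodule.smul_mem _ _ (Submodule.subset_span (Set.mem_insert_of_mem _ rfl)))
        (Submodule.smul_mem _ _ (Submodule.subset_span (Set.mem_insert _ _)))
  have hvw : v ∉ (E ∙ w) := by
    intro h
    obtain ⟨c, rfl⟩ := Submodule.mem_span_singleton.1 h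
    rw [map_smul, h1, smul_comm c l w, left_eq_add] at h2
    exact (smul_ne_zero hl hw) h2
  have hli : LinearIndependent E ![w, v] := by
    rw [LinearIndependent.pair_iff' hw]
    intro c hc
    exact hvw (Submodule.mem_span_singleton.2 ⟨c, hc⟩)
  have h3 : finrank E (Submodule.span E {w, v}) = 2 := by
    have h4 := finrank_span_eq_card hli
    rw [Matrix.range_cons, Matrix.range_cons, Matrix.range_empty, Set.union_empty, Set.singleton_union,
      Fintype.card_fin] at h4
    exact h4
  have h4 := Submodule.finrank_quotient_add_finrank (Submodule.span E {w, v})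
  refine ⟨by omega, (aa_block m (g := g) hw hl h1 h2 hJ).trans ?_⟩
  exact Nat.add_le_add_left (aa_tensor m g _ _ (mapQ_inj hf hJ) (by omega)) _

/-- A vector in a block of size two, if `f` is not diagonalizable. -/
theorem exists_block [FiniteDimensional E V] {f : Module.End E V} (hf : Function.Injective f)
    (h : ⨆ μ : E, f.eigenspace μ ≠ ⊤) : ∃ (w v : V) (l : E), w ≠ 0 ∧ l ≠ 0 ∧ f w = l • w ∧ f v = l • v + l • w := by
  have h1 : ∃ l : E, ¬ f.maxGenEigenspace l ≤ f.eigenspace l := by
    by_contra hcon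
    push Not at hcon
    apply h
    rw [eq_top_iff, ← Module.End.iSup_maxGenEigenspace_eq_top f]
    exact iSup_mono hcon
  obtain ⟨l, hl⟩ := h1
  obtain ⟨x, hx, hx'⟩ := Set.not_subset.1 hl
  -- the least power which annihilates `x`
  obtain ⟨k, hk⟩ := Module.End.mem_maxGenEigenspace f l x |>.1 hx
  have hex : ∃ k : ℕ, ((f - algebraMap E (Module.End E V) l) ^ k) x = 0 := ⟨k, hk⟩
  classical
  set n := Nat.find hex with hn
  have hn1 : ((f - algebraMap E (Module.End E V) l) ^ n) x = 0 := Nat.find_spec hex
  have hn2 : 2 ≤ n := by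
    by_contra hcon
    have h3 : n = 0 ∨ n = 1 := by omega
    rcases h3 with h3 | h3
    · rw [h3, pow_zero] at hn1
      apply hx'
      change x ∈ f.eigenspace l
      rw [show x = 0 from hn1]
      exact Submodule.zero_mem _
    · rw [h3, pow_one] at hn1
      apply hx'
      exact Module.End.mem_eigenspace_iff.2 (sub_eq_zero.1 hn1)
  have hmin : ((f - algebraMap E (Module.End E V) l) ^ (n - 1)) x ≠ 0 := Nat.find_min hex (by omega)
  set N := f - algebraMap E (Module.End E V) l with hN
  set v := (N ^ (n - 2)) x with hv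
  set w0 := N v with hw0
  have hw0' : w0 = (N ^ (n - 1)) x := by
    rw [hw0, hv, ← Module.End.mul_apply, ← pow_succ']
    congr 2
    omega
  have hNw : N w0 = 0 := by
    rw [hw0', ← Module.End.mul_apply, ← pow_succ', show n - 1 + 1 = n by omega]
    exact hn1
  have hfw : f w0 = l • w0 := sub_eq_zero.1 hNw
  have hfv : f v = l • v + w0 := by
    rw [hw0, hN]
    change f v = l • v + (f v - l • v)
    abel
  have hw00 : w0 ≠ 0 := by rwa [hw0']
  have hl0 : l ≠ 0 := by
    rintro rfl
    rw [zero_smul, ← map_zero f] at hfw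
    exact hw00 (hf hfw)
  refine ⟨l⁻¹ • w0, v, l, smul_ne_zero (inv_ne_zero hl0) hw00, hl0, ?_, ?_⟩
  · rw [map_smul, hfw, smul_comm]
  · rw [hfv, smul_smul, mul_inv_cancel₀ hl0, one_smul]

end Pool.Agent.X306.JB
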