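import Pool.Agent.X306.JB.B

/-!
# The unipotent blocks: polynomials and the shift
-/

set_option autoImplicit false

open Module TensorProduct Polynomial Finset

universe u

namespace Pool.Agent.X306.JB

variable {E : Type u} [Field E]

instance (k : ℕ) : FiniteDimensional E (degreeLT E k) :=
  Module.Finite.equiv (degreeLTEquiv E k).symm

theorem mem_dL {k : ℕ} {f : E[X]} : f ∈ degreeLT E k ↔ ∀ i, k ≤ i → f.coeff i = 0 := by
  rw [mem_degreeLT, degree_lt_iff_coeff_zero]

/-- The shift on the polynomials of degree less than `k`. -/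
noncomputable def tau (k : ℕ) : Module.End E (degreeLT E k) :=
  (taylor (1 : E)).restrict fun _ hf => taylor_mem_degreeLT.2 hf

theorem tau_val (k : ℕ) (f : degreeLT E k) : (tau k f : E[X]) = taylor 1 (f : E[X]) := rfl

theorem aa_tau (m k : ℕ) : aa m (dbl (tau (E := E) (k + 1))) ≤ aa m (tau (E := E) k) + aa m (tau (E := E) (k + 2)) := by
  have hX : ∀ {k : ℕ} {f : E[X]}, f ∈ degreeLT E k → X * f ∈ degreeLT E (k + 1) := by
    intro k f hf
    rw [mem_dL] at hf ⊢
    intro i hi
    obtain ⟨j, rfl⟩ : ∃ j, i = j + 1 := ⟨i - 1, by omega⟩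
    rw [coeff_X_mul]
    exact hf j (by omega)
  have hmono : ∀ {k l : ℕ}, k ≤ l → ∀ {f : E[X]}, f ∈ degreeLT E k → f ∈ degreeLT E l := by
    intro k l hkl f hf
    exact degreeLT_mono hkl hf
  let i : degreeLT E k →ₗ[E] degreeLT E (k + 1) × degreeLT E (k + 1) :=
    { toFun := fun q => (⟨-(X * q.1), Submodule.neg_mem _ (hX q.2)⟩, ⟨q.1, hmono (by omega) q.2⟩)
      map_add' := fun x y => by
        refine Prod.ext (Subtype.ext ?_) (Subtype.ext ?_)
        · change -(X * (x.1 + y.1)) = -(X * x.1) + -(X * y.1)
          ring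
        · rfl
      map_smul' := fun c x => by
        refine Prod.ext (Subtype.ext ?_) (Subtype.ext ?_)
        · change -(X * (c • x.1)) = c • -(X * x.1)
          rw [mul_smul_comm, smul_neg]
        · rfl }
  let p : (degreeLT E (k + 1) × degreeLT E (k + 1)) →ₗ[E] degreeLT E (k + 2) :=
    { toFun := fun q => ⟨q.1.1 + X * q.2.1, Submodule.add_mem _ (hmono (by omega) q.1.2) (hX q.2.2)⟩
      map_add' := fun x y => by
        refine Subtype.ext ?_
        change x.1.1 + y.1.1 + X * (x.2.1 + y.2.1) = (x.1.1 + X * x.2.1) + (y.1.1 + X * y.2.1)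
        ring
      map_smul' := fun c x => by
        refine Subtype.ext ?_
        change c • x.1.1 + X * (c • x.2.1) = c • (x.1.1 + X * x.2.1)
        rw [mul_smul_comm, smul_add] }
  refine aa_exact m i p ?_ ?_ ?_ ?_
  · intro x y hxy
    exact Subtype.ext (congrArg (fun z => (z.2 : E[X])) hxy)
  · rintro ⟨⟨x, hx⟩, ⟨y, hy⟩⟩ hxy
    have h1 : x + X * y = 0 := congrArg Subtype.val hxy
    have h2 : x = -(X * y) := eq_neg_of_add_eq_zero_left h1
    have h3 : y ∈ degreeLT E k := by
      rw [mem_dL]
      intro j hj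
      have h4 := mem_dL.1 hx (j + 1) (by omega)
      rw [h2, coeff_neg, coeff_X_mul, neg_eq_zero] at h4
      exact h4
    exact ⟨⟨y, h3⟩, Prod.ext (Subtype.ext h2.symm) rfl⟩
  · intro y
    refine Prod.ext (Subtype.ext ?_) (Subtype.ext ?_)
    · change taylor 1 (-(X * y.1)) + taylor 1 y.1 = -(X * taylor 1 y.1)
      rw [map_neg, taylor_mul, taylor_X, C_1]
      ring
    · rfl
  · intro x
    refine Subtype.ext ?_
    change (taylor 1 x.1.1 + taylor 1 x.2.1) + X * taylor 1 x.2.1 = taylor 1 (x.1.1 + X * x.2.1)
    rw [map_add, taylor_mul, taylor_X, C_1]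
    ring

/-- There is at most one line of eigenvectors. -/
theorem sd_tau [CharZero E] (k : ℕ) : sd (tau (E := E) k) ≤ 1 := by
  have h1 : ∀ (f : E[X]) (μ : E), taylor 1 f = μ • f → f = C (f.eval 0) := by
    intro f μ hf
    by_cases hf0 : f = 0
    · rw [hf0]; simp
    have h2 : μ = 1 := by
      have h3 := congrArg (fun g => g.coeff f.natDegree) hf
      simp only [coeff_taylor_natDegree, coeff_smul, smul_eq_mul, coeff_natDegree] at h3
      have h4 : f.leadingCoeff ≠ 0 := leadingCoeff_ne_zero.2 hf0
      exact mul_right_cancel₀ h4 (by rw [one_mul]; exact h3.symm)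
    rw [h2, one_smul] at hf
    have h3 : ∀ n : ℕ, f.eval (n : E) = f.eval 0 := by
      intro n
      induction n with
      | zero => rw [Nat.cast_zero]
      | succ n ih =>
        rw [← ih, Nat.cast_succ]
        have h4 := congrArg (fun g => g.eval (n : E)) hf
        simp only [taylor_eval] at h4
        exact h4
    have h5 : f - C (f.eval 0) = 0 := by
      refine Polynomial.eq_zero_of_infinite_isRoot _ (Set.Infinite.mono ?_
        (Set.infinite_range_of_injective (Nat.cast_injective (R := E))))
      rintro _ ⟨n, rfl⟩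
      change (f - C (f.eval 0)).IsRoot (n : E)
      rw [IsRoot.def, eval_sub, eval_C, h3, sub_self]
    exact sub_eq_zero.1 h5
  unfold sd
  set S : Submodule E (degreeLT E k) := ⨆ μ : E, (tau k).eigenspace μ with hS
  have h2 : ∀ x ∈ S, (x : E[X]) = C ((x : E[X]).eval 0) := by
    let K : Submodule E (degreeLT E k) :=
      { carrier := {x | (x : E[X]) = C ((x : E[X]).eval 0)}
        add_mem' := fun {a b} ha hb => by
          change (a : E[X]) + b = C (((a : E[X]) + b).eval 0)
          rw [eval_add, C_add, ← (show (a : E[X]) = _ from ha), ← (show (b : E[X]) = _ from hb)]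
        zero_mem' := by
          change (0 : E[X]) = C ((0 : E[X]).eval 0)
          simp
        smul_mem' := fun c x hx => by
          change c • (x : E[X]) = C ((c • (x : E[X])).eval 0)
          rw [eval_smul, smul_eq_mul, C_mul, ← (show (x : E[X]) = _ from hx), smul_eq_C_mul] }
    have h3 : S ≤ K := by
      rw [hS]
      refine iSup_le fun μ x hx => ?_
      exact h1 _ μ (congrArg Subtype.val (Module.End.mem_eigenspace_iff.1 hx))
    exact fun x hx => h3 hx
  let ev : degreeLT E k →ₗ[E] E := (leval 0).comp (degreeLT E k).subtype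
  have h3 : Function.Injective (ev.domRestrict S) := by
    intro x y hxy
    have h4 : (x.1 : E[X]).eval 0 = (y.1 : E[X]).eval 0 := hxy
    refine Subtype.ext (Subtype.ext ?_)
    rw [h2 x.1 x.2, h2 y.1 y.2, h4]
  have h5 := LinearMap.finrank_le_finrank_of_injective h3
  rwa [finrank_self] at h5

/-- The number of the walks of length `m` on the positive integers which start at `k`. -/
def ww : ℕ → ℕ → ℕ
  | 0, 0 => 0
  | 0, _ + 1 => 1
  | _ + 1, 0 => 0
  | m + 1, k + 1 => ww m k + ww m (k + 2)

theorem aa_tau_le [CharZero E] (m : ℕ) : ∀ k : ℕ, aa m (tau (E := E) k) ≤ ww m k := by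
  have h0 : ∀ m : ℕ, aa m (tau (E := E) 0) = 0 := by
    intro m
    haveI : Subsingleton (degreeLT E 0) :=
      (degreeLTEquiv E 0).injective.subsingleton
    exact aa_subsingleton m _
  induction m with
  | zero =>
    intro k
    rcases k with _ | k
    · rw [h0]
      exact Nat.zero_le _
    · exact sd_tau (k + 1)
  | succ m ih =>
    intro k
    rcases k with _ | k
    · rw [h0]
      exact Nat.zero_le _
    · rw [aa_succ]
      exact (aa_tau m k).trans (Nat.add_le_add (ih k) (ih (k + 2)))

theorem ww_eq (m : ℕ) : ∀ k : ℕ, ww m k =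
    ∑ j ∈ range (m + 1), m.choose j * (if -(k : ℤ) < 2 * j - m ∧ 2 * (j : ℤ) - m ≤ k then 1 else 0) := by
  induction m with
  | zero =>
    intro k
    rcases k with _ | k
    · simp [ww]
    · rw [show ww 0 (k + 1) = 1 from rfl, Finset.sum_range_one, if_pos (by push_cast; omega)]
      rfl
  | succ m ih =>
    intro k
    have h1 := Finset.sum_choose_succ_mul (R := ℕ) (fun j _ =>
      if -(k : ℤ) < 2 * j - (m + 1 : ℕ) ∧ 2 * (j : ℤ) - (m + 1 : ℕ) ≤ k then 1 else 0) m
    simp only [Nat.cast_id] at h1
    rw [h1, ← Finset.sum_add_distrib]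
    rcases k with _ | k
    · rw [show ww (m + 1) 0 = 0 from rfl]
      symm
      refine Finset.sum_eq_zero fun j _ => ?_
      rw [if_neg (by push_cast; omega), if_neg (by push_cast; omega), mul_zero, add_zero]
    · rw [show ww (m + 1) (k + 1) = ww m k + ww m (k + 2) from rfl, ih, ih, ← Finset.sum_add_distrib]
      refine Finset.sum_congr rfl fun j _ => ?_
      rw [← mul_add, ← mul_add]
      congr 1
      push_cast
      split_ifs <;> omega

theorem ww_one (m : ℕ) : ww m 1 ≤ m.choose (m / 2) := by
  rw [ww_eq, Finset.sum_eq_single ((m + 1) / 2)]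
  · rw [if_pos (by push_cast; omega), mul_one]
    exact Nat.choose_le_middle _ _
  · intro j _ hj
    rw [if_neg (by push_cast; omega), mul_zero]
  · intro h
    rw [Finset.mem_range] at h
    omega

theorem aa_one [CharZero E] (m : ℕ) : aa m (1 : Module.End E E) ≤ m.choose (m / 2) := by
  refine le_trans (le_of_eq ?_) ((aa_tau_le (E := E) m 1).trans (ww_one m))
  refine (aa_equiv m ((degreeLTEquiv E 1).trans (LinearEquiv.funUnique (Fin 1) E E)) ?_).symm
  intro x
  have h1 : (x : E[X]) = C ((x : E[X]).coeff 0) := by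
    ext i
    rw [coeff_C]
    split_ifs with hi
    · rw [hi]
    · exact mem_dL.1 x.2 i (by omega)
  have h2 : tau 1 x = x := by
    refine Subtype.ext ?_
    rw [tau_val, h1, taylor_C]
  rw [h2]
  rfl

/-- The base of the recursion. -/
theorem aa_base [CharZero E] [IsAlgClosed E] {Y : Type u} [AddCommGroup Y] [Module E Y] [FiniteDimensional E Y]
    {g : Module.End E Y} (hg : Function.Injective g) (m : ℕ) : aa m g ≤ finrank E Y * m.choose (m / 2) := by
  have h1 := aa_tensor m (1 : Module.End E E) (finrank E Y) g hg rfl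
  have h2 : aa m (TensorProduct.map (1 : Module.End E E) g) = aa m g := by
    refine aa_equiv m (TensorProduct.lid E Y) fun x => ?_
    induction x using TensorProduct.induction_on with
    | zero => simp
    | tmul x y => simp
    | add x y hx hy => rw [map_add, map_add, map_add, map_add, hx, hy]
  rw [h2] at h1
  exact h1.trans (Nat.mul_le_mul_left _ (aa_one m))

/-- The solution of the recursion. -/
theorem rec_bound {A : ℕ → ℕ → ℕ} {y J : ℕ} {K : ℕ → ℕ} (h0 : ∀ m, A 0 m ≤ y * K m)
    (h1 : ∀ n m, A (n + 1) m ≤ A n (m + 1) + J * A n m) (n : ℕ) :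
    ∀ m, A n m ≤ y * ∑ k ∈ range (n + 1), n.choose k * (J ^ (n - k) * K (m + k)) := by
  induction n with
  | zero => intro m; simpa using h0 m
  | succ n ih =>
    intro m
    have h2 := Finset.sum_choose_succ_mul (R := ℕ) (fun i j => J ^ j * K (m + i)) n
    simp only [Nat.cast_id] at h2
    rw [h2, mul_add]
    refine (h1 n m).trans ?_
    rw [add_comm]
    refine Nat.add_le_add ?_ ?_
    · refine (Nat.mul_le_mul_left _ (ih m)).trans (le_of_eq ?_)
      rw [mul_left_comm, Finset.mul_sum]
      congr 1
      refine Finset.sum_congr rfl fun k hk => ?_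
      rw [Finset.mem_range] at hk
      rw [show n + 1 - k = (n - k) + 1 by omega, pow_succ]
      ring
    · refine (ih (m + 1)).trans (le_of_eq ?_)
      congr 1
      refine Finset.sum_congr rfl fun k _ => ?_
      rw [show m + 1 + k = m + (k + 1) by ring]

end Pool.Agent.X306.JB
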