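import Pool.Agent.X306.JB.C

/-!
# The bound
-/

set_option autoImplicit false

open Module TensorProduct Finset

universe u

namespace Pool.Agent.X306.JB

/-- central binomial coefficients -/
theorem choose_sq_le (m : ℕ) : (m.choose (m / 2) : ℝ) ^ 2 * (m + 1) ≤ 4 ^ m := by
  have heven : ∀ k : ℕ, (k.centralBinom : ℝ) ^ 2 * (2 * k + 1) ≤ 4 ^ (2 * k) := by
    intro k
    induction k with
    | zero => simp
    | succ k ih =>
      have h1 : ((k + 1 : ℕ) : ℝ) * ((k + 1).centralBinom : ℝ) =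
          2 * (2 * k + 1) * (k.centralBinom : ℝ) := by
        exact_mod_cast Nat.succ_mul_centralBinom_succ k
      push_cast at h1 ⊢
      have hk : (0 : ℝ) ≤ k := Nat.cast_nonneg k
      have h2 : ((k : ℝ) + 1) ^ 2 * (((k + 1).centralBinom : ℝ) ^ 2 * (2 * (k + 1) + 1)) =
          4 * (2 * k + 1) * (2 * k + 3) * ((k.centralBinom : ℝ) ^ 2 * (2 * k + 1)) := by
        calc ((k : ℝ) + 1) ^ 2 * (((k + 1).centralBinom : ℝ) ^ 2 * (2 * (k + 1) + 1))
            = (((k : ℝ) + 1) * ((k + 1).centralBinom : ℝ)) ^ 2 * (2 * k + 3) := by ring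
          _ = _ := by rw [h1]; ring
      have h3 : 4 * (2 * (k : ℝ) + 1) * (2 * k + 3) * ((k.centralBinom : ℝ) ^ 2 * (2 * k + 1)) ≤
          4 * (2 * (k : ℝ) + 1) * (2 * k + 3) * 4 ^ (2 * k) :=
        mul_le_mul_of_nonneg_left ih (by positivity)
      have h4 : 4 * (2 * (k : ℝ) + 1) * (2 * k + 3) * 4 ^ (2 * k) ≤
          ((k : ℝ) + 1) ^ 2 * 4 ^ (2 * (k + 1)) := by
        have h5 : (4 : ℝ) ^ (2 * (k + 1)) = 16 * 4 ^ (2 * k) := by
          rw [show 2 * (k + 1) = 2 * k + 2 by ring, pow_add]; norm_num; ring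
        rw [h5]
        have h6 : (0 : ℝ) < 4 ^ (2 * k) := by positivity
        nlinarith
      have h7 : (0 : ℝ) < ((k : ℝ) + 1) ^ 2 := by positivity
      have h8 := (h2.le.trans h3).trans h4
      exact le_of_mul_le_mul_left h8 h7
  rcases Nat.even_or_odd' m with ⟨k, hk | hk⟩
  · subst hk
    have h1 : (2 * k).choose (2 * k / 2) = k.centralBinom := by
      rw [Nat.mul_div_cancel_left k (by norm_num)]
      rfl
    rw [h1]
    push_cast
    exact heven k
  · subst hk
    have h1 : (2 * k + 1) / 2 = k := by omega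
    rw [h1]
    have h2 : 2 * ((2 * k + 1).choose k : ℝ) = ((k + 1).centralBinom : ℝ) := by
      have h3 : (k + 1).centralBinom = 2 * (2 * k + 1).choose k := by
        have h4 : (k + 1).centralBinom = (2 * k + 1 + 1).choose (k + 1) := by
          unfold Nat.centralBinom
          congr 1
        rw [h4, Nat.choose_succ_succ]
        have h5 : (2 * k + 1).choose (k + 1) = (2 * k + 1).choose k :=
          Nat.choose_symm_of_eq_add (by omega)
        rw [h5]
        ring
      rw [h3]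
      push_cast
      ring
    have h3 := heven (k + 1)
    rw [← h2] at h3
    push_cast at h3 ⊢
    have h4 : (4 : ℝ) ^ (2 * (k + 1)) = 4 * 4 ^ (2 * k + 1) := by
      rw [← pow_succ']
      congr 1
    rw [h4] at h3
    have h5 : (0 : ℝ) ≤ ((2 * k + 1).choose k : ℝ) ^ 2 := sq_nonneg _
    nlinarith

/-- **The average of the central binomial coefficients** (Cauchy-Schwarz). -/
theorem conc (J n : ℕ) :
    ((∑ k ∈ range (n + 1), n.choose k * (J ^ (n - k) * k.choose (k / 2)) : ℕ) : ℝ) ^ 2 * (2 * (n + 1)) ≤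
      ((J : ℝ) + 2) ^ (2 * n + 1) := by
  set b : ℝ := (J : ℝ) + 2 with hbdef
  have hb : b = 2 + J := by rw [hbdef]; ring
  set W : ℕ → ℝ := fun m => (n.choose m : ℝ) * 2 ^ m * (J : ℝ) ^ (n - m) with hW
  set c : ℕ → ℝ := fun m => (m.choose (m / 2) : ℝ) / 2 ^ m with hc
  have hW0 : ∀ m, 0 ≤ W m := fun m => by positivity
  have hN : ((∑ k ∈ range (n + 1), n.choose k * (J ^ (n - k) * k.choose (k / 2)) : ℕ) : ℝ) =
      ∑ m ∈ range (n + 1), W m * c m := by
    push_cast
    refine Finset.sum_congr rfl fun m _ => ?_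
    have h5 : (2 : ℝ) ^ m ≠ 0 := by positivity
    simp only [hW, hc]
    field_simp
  have hsumW : ∑ m ∈ range (n + 1), W m = b ^ n := by
    rw [hb, add_pow]
    refine Finset.sum_congr rfl fun m _ => ?_
    simp only [hW]
    ring
  have hc2 : ∀ m : ℕ, c m ^ 2 ≤ 1 / (m + 1) := by
    intro m
    have h1 := choose_sq_le m
    have h2 : (0 : ℝ) < (m : ℝ) + 1 := by positivity
    simp only [hc]
    rw [div_pow, ← pow_mul, mul_comm m 2, pow_mul, show (2 : ℝ) ^ 2 = 4 by norm_num,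
      div_le_div_iff₀ (by positivity) h2, one_mul]
    exact h1
  have hsumWc : ∑ m ∈ range (n + 1), W m * c m ^ 2 ≤ b ^ (n + 1) / (2 * (n + 1)) := by
    have h1 : ∀ m ∈ range (n + 1), W m * c m ^ 2 ≤
        ((n + 1).choose (m + 1) * 2 ^ (m + 1) * (J : ℝ) ^ (n - m)) / (2 * (n + 1)) := by
      intro m _
      have h2 := mul_le_mul_of_nonneg_left (hc2 m) (hW0 m)
      refine h2.trans (le_of_eq ?_)
      have h3 : ((n : ℝ) + 1) * (n.choose m : ℝ) = ((n + 1).choose (m + 1) : ℝ) * (m + 1) := by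
        have h4 := Nat.add_one_mul_choose_eq n m
        exact_mod_cast h4
      have h5 : ((m : ℝ) + 1) ≠ 0 := by positivity
      have h6 : ((n : ℝ) + 1) ≠ 0 := by positivity
      simp only [hW]
      rw [mul_one_div, div_eq_div_iff h5 (by positivity)]
      calc (n.choose m : ℝ) * 2 ^ m * (J : ℝ) ^ (n - m) * (2 * ((n : ℝ) + 1))
          = (((n : ℝ) + 1) * (n.choose m : ℝ)) * 2 ^ (m + 1) * (J : ℝ) ^ (n - m) := by
            rw [pow_succ]; ring
        _ = _ := by rw [h3]; ring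
    refine (Finset.sum_le_sum h1).trans ?_
    rw [← Finset.sum_div]
    refine div_le_div_of_nonneg_right ?_ (by positivity)
    rw [hb, add_pow, Finset.sum_range_succ' _ (n + 1)]
    have h2 : ∀ m ∈ range (n + 1), ((n + 1).choose (m + 1) * 2 ^ (m + 1) * (J : ℝ) ^ (n - m)) =
        2 ^ (m + 1) * (J : ℝ) ^ (n + 1 - (m + 1)) * ((n + 1).choose (m + 1) : ℝ) := by
      intro m _
      rw [Nat.add_sub_add_right]
      ring
    rw [Finset.sum_congr rfl h2]
    have h3 : (0 : ℝ) ≤ 2 ^ 0 * (J : ℝ) ^ (n + 1 - 0) * ((n + 1).choose 0 : ℝ) := by positivity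
    linarith
  have hCS : (∑ m ∈ range (n + 1), W m * c m) ^ 2 ≤
      (∑ m ∈ range (n + 1), W m) * ∑ m ∈ range (n + 1), W m * c m ^ 2 := by
    have h1 := Finset.sum_mul_sq_le_sq_mul_sq (range (n + 1)) (fun m => √(W m))
      (fun m => √(W m) * c m)
    have h2 : ∀ m, √(W m) * (√(W m) * c m) = W m * c m := fun m => by
      rw [← mul_assoc, Real.mul_self_sqrt (hW0 m)]
    have h3 : ∀ m, √(W m) ^ 2 = W m := fun m => Real.sq_sqrt (hW0 m)
    have h4 : ∀ m, (√(W m) * c m) ^ 2 = W m * c m ^ 2 := fun m => by rw [mul_pow, h3]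
    simp only [h2, h3, h4] at h1
    exact h1
  have h5 : (∑ m ∈ range (n + 1), W m * c m) ^ 2 ≤ b ^ n * (b ^ (n + 1) / (2 * (n + 1))) := by
    refine hCS.trans ?_
    rw [hsumW]
    exact mul_le_mul_of_nonneg_left hsumWc (by positivity)
  rw [hN]
  have h6 : (0 : ℝ) < 2 * ((n : ℝ) + 1) := by positivity
  have h7 := mul_le_mul_of_nonneg_right h5 h6.le
  refine h7.trans (le_of_eq ?_)
  rw [mul_assoc, div_mul_cancel₀ _ h6.ne', ← pow_add]
  congr 1
  ring

variable {E : Type u} [Field E] [IsAlgClosed E] [CharZero E]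

/-- **The bound for a sequence of tensor products.** -/
theorem main_bound {Y V : Type u} [AddCommGroup Y] [Module E Y] [FiniteDimensional E Y] [AddCommGroup V] [Module E V]
    [FiniteDimensional E V] {g : Module.End E Y} {f : Module.End E V} (hg : Function.Injective g)
    (hf : Function.Injective f) (hns : ⨆ μ : E, f.eigenspace μ ≠ ⊤)
    (W : ℕ → Type u) [∀ n, AddCommGroup (W n)] [∀ n, Module E (W n)] [∀ n, FiniteDimensional E (W n)]
    (F : ∀ n, Module.End E (W n)) (e0 : Y ≃ₗ[E] W 0) (h0 : ∀ x, e0 (g x) = F 0 (e0 x))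
    (e : ∀ n, (W n ⊗[E] V) ≃ₗ[E] W (n + 1))
    (he : ∀ n x, e n (TensorProduct.map (F n) f x) = F (n + 1) (e n x)) (n : ℕ) :
    (sd (F n) : ℝ) ≤ √((finrank E V : ℝ) / (2 * (n + 1))) * (finrank E Y * (finrank E V : ℝ) ^ n) := by
  obtain ⟨w, v, l, hw, hl, h1, h2⟩ := exists_block hf hns
  set b := finrank E V with hb
  have hb2 : 2 ≤ b := (aa_rec 0 g hf hw hl h1 h2).1
  obtain ⟨J, hJ⟩ : ∃ J, b = J + 2 := ⟨b - 2, by omega⟩
  have h3 := rec_bound (A := fun n m => aa m (F n)) (y := finrank E Y) (J := J) (K := fun m => m.choose (m / 2))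
    (fun m => by
      rw [← aa_equiv m e0 h0]
      exact aa_base hg m)
    (fun n m => by
      rw [← aa_equiv m (e n) (he n)]
      have h4 := (aa_rec m (F n) hf hw hl h1 h2).2
      rwa [← hb, hJ, Nat.add_sub_cancel] at h4) n 0
  simp only [zero_add] at h3
  have h4 := conc J n
  set N := ∑ k ∈ range (n + 1), n.choose k * (J ^ (n - k) * k.choose (k / 2)) with hN
  have hbJ : (b : ℝ) = J + 2 := by rw [hJ]; push_cast; ring
  rw [← hbJ] at h4
  have hb0 : (0 : ℝ) ≤ b := Nat.cast_nonneg _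
  have h5 : (N : ℝ) ≤ √((b : ℝ) / (2 * (n + 1))) * (b : ℝ) ^ n := by
    have h6 : (N : ℝ) ^ 2 ≤ (√((b : ℝ) / (2 * (n + 1))) * (b : ℝ) ^ n) ^ 2 := by
      rw [mul_pow, Real.sq_sqrt (by positivity), ← pow_mul]
      have h7 : (0 : ℝ) < 2 * ((n : ℝ) + 1) := by positivity
      rw [div_mul_eq_mul_div, le_div_iff₀ h7]
      refine h4.trans (le_of_eq ?_)
      rw [pow_succ, mul_comm n 2]
      ring
    exact le_of_sq_le_sq h6 (by positivity)
  have h8 : (sd (F n) : ℝ) ≤ finrank E Y * N := by exact_mod_cast h3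
  refine h8.trans ?_
  calc (finrank E Y : ℝ) * N ≤ finrank E Y * (√((b : ℝ) / (2 * (n + 1))) * (b : ℝ) ^ n) :=
        mul_le_mul_of_nonneg_left h5 (Nat.cast_nonneg _)
    _ = _ := by ring

end Pool.Agent.X306.JB
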