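import Pool.Agent.X306.JB.D

/-!
# Complete varieties over a finite field and their cohomology
-/

set_option autoImplicit false

open CategoryTheory AlgebraicGeometry Module TensorProduct Filter

universe u v

namespace Pool.Agent.X306.JB

/-- A complete variety over `k`: a proper scheme over `k`, possibly singular. -/
structure Complete (k : Type u) [Field k] where
  scheme : Scheme.{u}
  str : scheme ⟶ Spec (CommRingCat.of k)
  proper : IsProper str

variable {k : Type u} [Field k] {E : Type v} [Field E]

namespace Complete

/-- The product over `k`. -/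
noncomputable def prod (X Y : Complete k) : Complete k where
  scheme := Limits.pullback X.str Y.str
  str := Limits.pullback.fst X.str Y.str ≫ X.str
  proper := by
    haveI := X.proper
    haveI := Y.proper
    infer_instance

/-- The product `Y × X ^ n`. -/
noncomputable def timesPow (Y X : Complete k) : ℕ → Complete k
  | 0 => Y
  | n + 1 => (timesPow Y X n).prod X

/-- The dimension. -/
noncomputable def dim (X : Complete k) : ℕ := ((topologicalKrullDim X.scheme).unbotD 0).toNat

end Complete

/-- Cohomology groups `H X i` of the complete varieties over `k` with a Frobenius endomorphism `F X i`, for example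
the étale cohomology groups `H^i(X ⊗ k̄, ℚ̄_ℓ)` for a finite field `k`. -/
structure Cohomology (k : Type u) [Field k] (E : Type v) [Field E] where
  H : Complete k → ℕ → Type v
  [group : ∀ X i, AddCommGroup (H X i)]
  [module : ∀ X i, Module E (H X i)]
  F : ∀ X i, Module.End E (H X i)

attribute [instance] Cohomology.group Cohomology.module

/-- There is an isomorphism of `V ⊗ W` with `U` which transforms `f ⊗ g` into `h`. -/
def IsTensor {V W U : Type v} [AddCommGroup V] [Module E V] [AddCommGroup W] [Module E W] [AddCommGroup U] [Module E U]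
    (f : Module.End E V) (g : Module.End E W) (h : Module.End E U) : Prop :=
  ∃ κ : (V ⊗[E] W) ≃ₗ[E] U, ∀ z, κ (TensorProduct.map f g z) = h (κ z)

/-- The number of the Jordan blocks of `f`, which is the dimension of the sum of the eigenspaces, the largest subspace
on which `f` acts semisimply (over an algebraically closed field). -/
noncomputable def jordanBlocks {V : Type v} [AddCommGroup V] [Module E V] (f : Module.End E V) : ℕ :=
  finrank E (⨆ μ : E, f.eigenspace μ : Submodule E V)

/-- The endomorphism `f` is diagonalizable. -/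
def Diagonalizable {V : Type v} [AddCommGroup V] [Module E V] (f : Module.End E V) : Prop :=
  ⨆ μ : E, f.eigenspace μ = ⊤

namespace Cohomology

variable (T : Cohomology k E)

/-- The sum of the cohomology groups of all degrees. -/
abbrev Total (X : Complete k) : Type v := DirectSum ℕ (T.H X)

/-- The Frobenius on the whole cohomology. -/
noncomputable def frob (X : Complete k) : Module.End E (T.Total X) := DirectSum.lmap (T.F X)

/-- The total Betti number of `X`. -/
noncomputable def betti (X : Complete k) : ℕ := finrank E (T.Total X)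

/-- The number of the Jordan blocks of the Frobenius on the whole cohomology of `X`. -/
noncomputable def blocks (X : Complete k) : ℕ := jordanBlocks (T.frob X)

/-- The Frobenius acts semisimply (diagonalizably) on all the cohomology groups of `X`. -/
def Semisimple (X : Complete k) : Prop := ∀ i, Diagonalizable (T.F X i)

/-- The known properties of the cohomology: it is finite-dimensional, the Frobenius is injective, the Künneth formula
holds, and the dimension is additive for (nonempty) varieties. -/
structure IsCohomology : Prop where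
  finite : ∀ X, FiniteDimensional E (T.Total X)
  injective : ∀ X i, Function.Injective (T.F X i)
  kunneth : ∀ X Y : Complete k, IsTensor (T.frob X) (T.frob Y) (T.frob (X.prod Y))
  dim_prod : ∀ X Y : Complete k, 0 < T.betti X → 0 < T.betti Y → (X.prod Y).dim = X.dim + Y.dim

/-- The upper bound of the law, for all the varieties `Y × X ^ n`. -/
def FewBlocks (X : Complete k) : Prop :=
  ∀ (Y : Complete k) (n : ℕ),
    (T.blocks (Y.timesPow X n) : ℝ) ≤ √((T.betti X : ℝ) / (2 * (n + 1))) * T.betti (Y.timesPow X n)

/-- The class `C` is closed under products and contains a curve. -/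
def IsProductClass (C : Set (Complete k)) : Prop :=
  (∀ X ∈ C, ∀ Y ∈ C, X.prod Y ∈ C) ∧ ∃ Z ∈ C, Z.dim = 1 ∧ 0 < T.betti Z

/-- For all `Z` in `C` the number of the Jordan blocks is at least `f(dim Z) b(Z)`, for some function `f` with
`limsup f(d) √d = ∞`. -/
def ManyBlocks (C : Set (Complete k)) : Prop :=
  ∃ f : ℕ → ℝ, (∀ B : ℝ, ∃ᶠ d : ℕ in atTop, B < f d * √(d : ℝ)) ∧ ∀ Z ∈ C, f Z.dim * T.betti Z ≤ T.blocks Z

variable {T}

theorem frob_of (X : Complete k) (i : ℕ) (x : T.H X i) :
    T.frob X (DirectSum.lof E ℕ (T.H X) i x) = DirectSum.lof E ℕ (T.H X) i (T.F X i x) := by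
  unfold frob
  rw [DirectSum.lmap_lof]

theorem frob_comp (X : Complete k) (i : ℕ) (x : T.Total X) :
    DirectSum.component E ℕ (T.H X) i (T.frob X x) = T.F X i (DirectSum.component E ℕ (T.H X) i x) := by
  unfold frob
  rw [DirectSum.component.eq_1]
  rfl

theorem frob_inj (hT : T.IsCohomology) (X : Complete k) : Function.Injective (T.frob X) := by
  rw [injective_iff_map_eq_zero]
  intro x hx
  refine DirectSum.ext_component E fun i => ?_
  have h := frob_comp X i x
  rw [hx, map_zero] at h
  rw [map_zero]
  exact hT.injective X i (by rw [← h, map_zero])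

theorem semisimple_iff (X : Complete k) : T.Semisimple X ↔ ⨆ μ : E, (T.frob X).eigenspace μ = ⊤ := by
  constructor
  · intro h
    rw [eq_top_iff]
    rintro x -
    induction x using DirectSum.induction_on with
    | zero => exact Submodule.zero_mem _
    | of i x =>
      have h1 : (⨆ μ : E, (T.F X i).eigenspace μ) ≤
          (⨆ μ : E, (T.frob X).eigenspace μ).comap (DirectSum.lof E ℕ (T.H X) i) := by
        refine iSup_le fun μ y hy => ?_
        rw [Submodule.mem_comap]
        refine Submodule.mem_iSup_of_mem μ (Module.End.mem_eigenspace_iff.2 ?_)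
        rw [frob_of, Module.End.mem_eigenspace_iff.1 hy, map_smul]
      rw [show ⨆ μ : E, (T.F X i).eigenspace μ = ⊤ from h i] at h1
      exact h1 (Submodule.mem_top (x := x))
    | add x y hx hy => exact Submodule.add_mem _ hx hy
  · intro h i
    change ⨆ μ : E, (T.F X i).eigenspace μ = ⊤
    rw [eq_top_iff]
    rintro x -
    have h1 : (⨆ μ : E, (T.frob X).eigenspace μ) ≤
        (⨆ μ : E, (T.F X i).eigenspace μ).comap (DirectSum.component E ℕ (T.H X) i) := by
      refine iSup_le fun μ y hy => ?_
      rw [Submodule.mem_comap]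
      refine Submodule.mem_iSup_of_mem μ (Module.End.mem_eigenspace_iff.2 ?_)
      rw [← frob_comp, Module.End.mem_eigenspace_iff.1 hy, map_smul]
    rw [h] at h1
    have h2 := h1 (Submodule.mem_top (x := DirectSum.lof E ℕ (T.H X) i x))
    rwa [Submodule.mem_comap, DirectSum.component.lof_self] at h2

theorem semisimple_iff_blocks (hT : T.IsCohomology) (X : Complete k) : T.Semisimple X ↔ T.blocks X = T.betti X := by
  haveI := hT.finite X
  rw [semisimple_iff]
  constructor
  · intro h
    unfold blocks betti jordanBlocks
    rw [h, finrank_top]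
  · intro h
    exact Submodule.eq_top_of_finrank_eq h

theorem betti_prod (hT : T.IsCohomology) (X Y : Complete k) : T.betti (X.prod Y) = T.betti X * T.betti Y := by
  obtain ⟨κ, -⟩ := hT.kunneth X Y
  unfold betti
  rw [← κ.finrank_eq, Module.finrank_tensorProduct]

theorem betti_timesPow (hT : T.IsCohomology) (Y X : Complete k) (n : ℕ) :
    T.betti (Y.timesPow X n) = T.betti Y * T.betti X ^ n := by
  induction n with
  | zero => rw [pow_zero, mul_one]; rfl
  | succ n ih =>
    change T.betti ((Y.timesPow X n).prod X) = _
    rw [betti_prod hT, ih, pow_succ, mul_assoc]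

theorem dim_timesPow (hT : T.IsCohomology) (Y X : Complete k) (hY : 0 < T.betti Y) (hX : 0 < T.betti X) (n : ℕ) :
    (Y.timesPow X n).dim = Y.dim + n * X.dim := by
  induction n with
  | zero => rw [zero_mul, add_zero]; rfl
  | succ n ih =>
    change ((Y.timesPow X n).prod X).dim = _
    have h : 0 < T.betti (Y.timesPow X n) := by
      rw [betti_timesPow hT]
      positivity
    rw [hT.dim_prod _ _ h hX, ih]
    ring

variable [IsAlgClosed E] [CharZero E]

/-- **The law.** -/
theorem law (hT : T.IsCohomology) (X : Complete k) (hX : ¬ T.Semisimple X) (Y : Complete k) (n : ℕ) :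
    (T.blocks (Y.timesPow X n) : ℝ) ≤
      √((T.betti X : ℝ) / (2 * (n + 1))) * T.betti (Y.timesPow X n) := by
  haveI := hT.finite
  rw [betti_timesPow hT]
  push_cast
  rw [semisimple_iff] at hX
  have hk : ∀ n, ∃ κ : (T.Total (Y.timesPow X n) ⊗[E] T.Total X) ≃ₗ[E] T.Total (Y.timesPow X (n + 1)),
      ∀ z, κ (TensorProduct.map (T.frob (Y.timesPow X n)) (T.frob X) z) = T.frob (Y.timesPow X (n + 1)) (κ z) :=
    fun n => hT.kunneth _ _
  choose κ hκ using hk
  exact main_bound (frob_inj hT Y) (frob_inj hT X) hX (fun n => T.Total (Y.timesPow X n))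
    (fun n => T.frob (Y.timesPow X n)) (LinearEquiv.refl E _) (fun _ => rfl) κ hκ n

/-- **The criterion for a class of varieties.** -/
theorem class_iff (hT : T.IsCohomology) (C : Set (Complete k))
    (hC : ∀ X ∈ C, ∀ Y ∈ C, X.prod Y ∈ C) (Z₁ : Complete k) (hE : Z₁ ∈ C) (hE1 : Z₁.dim = 1)
    (hE0 : 0 < T.betti Z₁) :
    (∀ X ∈ C, T.Semisimple X) ↔ T.ManyBlocks C := by
  constructor
  · intro h
    refine ⟨fun _ => 1, fun B => ?_, fun Z hZ => ?_⟩
    · refine Eventually.frequently ?_
      have h1 : Tendsto (fun d : ℕ => √(d : ℝ)) atTop atTop :=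
        Real.tendsto_sqrt_atTop.comp tendsto_natCast_atTop_atTop
      filter_upwards [h1.eventually_gt_atTop B] with d hd
      rwa [one_mul]
    · rw [one_mul, (semisimple_iff_blocks hT Z).1 (h Z hZ)]
  · rintro ⟨f, hf, hfC⟩ X hX
    by_contra hcon
    have hX0 : 0 < T.betti X := by
      by_contra h0
      apply hcon
      haveI := hT.finite X
      rw [semisimple_iff_blocks hT]
      have h1 : T.blocks X ≤ T.betti X := Submodule.finrank_le _
      omega
    set e' : ℕ := max X.dim 1 with he'
    have he'1 : 1 ≤ e' := le_max_right _ _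
    have he'2 : X.dim ≤ e' := le_max_left _ _
    set b : ℝ := (T.betti X : ℝ) with hb
    have hb0 : 0 ≤ b := Nat.cast_nonneg _
    obtain ⟨d, hd, hfd⟩ := (frequently_atTop.1 (hf (√(b * e' / 2)))) 1
    set n := (d - 1) / e' with hn
    have h1 : n * e' ≤ d - 1 := Nat.div_mul_le_self _ _
    have h2 : d ≤ (n + 1) * e' := by
      have h3 := Nat.lt_div_mul_add (a := d - 1) (b := e') (by omega)
      rw [← hn] at h3
      have h4 : (n + 1) * e' = n * e' + e' := by ring
      omega
    have h3 : n * X.dim ≤ n * e' := Nat.mul_le_mul_left _ he'2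
    obtain ⟨j, hj⟩ : ∃ j, d = (j + 1) + n * X.dim := ⟨d - n * X.dim - 1, by omega⟩
    have hmem : ∀ (Y : Complete k), Y ∈ C → ∀ X ∈ C, ∀ n, Y.timesPow X n ∈ C := by
      intro Y hY X hX n
      induction n with
      | zero => exact hY
      | succ n ih => exact hC _ ih _ hX
    set Y := Z₁.timesPow Z₁ j with hY
    have hY0 : 0 < T.betti Y := by
      rw [hY, betti_timesPow hT]
      positivity
    have hYd : Y.dim = j + 1 := by
      rw [hY, dim_timesPow hT _ _ hE0 hE0, hE1]
      ring
    have hZC : Y.timesPow X n ∈ C := hmem _ (hmem _ hE _ hE j) _ hX n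
    have hZd : (Y.timesPow X n).dim = d := by
      rw [dim_timesPow hT _ _ hY0 hX0, hYd, hj]
    have h4 := hfC _ hZC
    rw [hZd] at h4
    have h5 := h4.trans (law hT X hcon Y n)
    have hpos : (0 : ℝ) < T.betti (Y.timesPow X n) := by
      have h6 : 0 < T.betti (Y.timesPow X n) := by
        rw [betti_timesPow hT]
        positivity
      exact_mod_cast h6
    have h6 := le_of_mul_le_mul_right h5 hpos
    have hd0 : (0 : ℝ) < d := by
      have : 0 < d := by omega
      exact_mod_cast this
    have h7 : √(b / (2 * ((n : ℝ) + 1))) ≤ √(b * e' / (2 * d)) := by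
      apply Real.sqrt_le_sqrt
      rw [div_le_div_iff₀ (by positivity) (by positivity)]
      have h8 : (d : ℝ) ≤ ((n : ℝ) + 1) * e' := by exact_mod_cast h2
      nlinarith
    have h8 : f d * √(d : ℝ) ≤ √(b * e' / (2 * d)) * √(d : ℝ) :=
      mul_le_mul_of_nonneg_right (h6.trans h7) (Real.sqrt_nonneg _)
    rw [← Real.sqrt_mul (by positivity), show b * e' / (2 * d) * d = b * e' / 2 by field_simp] at h8
    exact absurd hfd (not_lt.2 h8)

end Cohomology

end Pool.Agent.X306.JB
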